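import Pool.Agent.helper36.PP.SpecM

/-!
# Project pp: (MP_70a088_an), part M, module CYC: vanishing near an attracting cycle
-/

set_option autoImplicit false

open Complex Metric Set Filter Topology MeasureTheory MPS MQ Pool.Agent.helper98.ILF

noncomputable section

namespace PPS

theorem CYC_succ (f : Polynomial ℂ) (m : ℕ) (z : ℂ) : it f (m + 1) z = f.eval (it f m z) := by
  unfold it
  rw [Function.iterate_succ_apply']

theorem CYC_add (f : Polynomial ℂ) (m n : ℕ) (z : ℂ) : it f (m + n) z = it f m (it f n z) := by
  unfold it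
  rw [Function.iterate_add_apply]

theorem CYC_zero (f : Polynomial ℂ) (z : ℂ) : it f 0 z = z := rfl

theorem CYC_hasDeriv (f : Polynomial ℂ) (m : ℕ) (z : ℂ) :
    HasDerivAt (it f m) (∏ i ∈ Finset.range m, fd f (it f i z)) z := by
  induction m with
  | zero =>
    rw [Finset.range_zero, Finset.prod_empty]
    exact hasDerivAt_id z
  | succ m ih =>
    have h1 : HasDerivAt (fun w : ℂ => f.eval w) (fd f (it f m z)) (it f m z) := by
      unfold fd
      exact f.hasDerivAt (it f m z)
    have h2 := h1.comp z ih
    rw [Finset.prod_range_succ, mul_comm]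
    have h3 : it f (m + 1) = (fun w : ℂ => f.eval w) ∘ it f m := by
      funext w
      exact CYC_succ f m w
    rw [h3]
    exact h2

theorem CYC_diff (f : Polynomial ℂ) (m : ℕ) : Differentiable ℂ (it f m) :=
  fun z => (CYC_hasDeriv f m z).differentiableAt

theorem CYC_surj (f : Polynomial ℂ) (hf : 1 ≤ f.natDegree) (m : ℕ) :
    Function.Surjective (it f m) := by
  have h1 : Function.Surjective (fun w : ℂ => f.eval w) := by
    intro w
    have hd : (f - Polynomial.C w).degree ≠ 0 := by
      have h2 : (f - Polynomial.C w).natDegree = f.natDegree := Polynomial.natDegree_sub_C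
      intro h3
      have h4 := Polynomial.natDegree_eq_of_degree_eq_some (n := 0) h3
      omega
    obtain ⟨z, hz⟩ := IsAlgClosed.exists_root _ hd
    refine ⟨z, ?_⟩
    rw [Polynomial.IsRoot.def, Polynomial.eval_sub, Polynomial.eval_C, sub_eq_zero] at hz
    exact hz
  exact h1.iterate m

theorem CYC (hL1 : LC1_stmt) (hL3 : LC3_stmt) : CYC_stmt := by
  intro f p k a κ P hf hk hkp hder hpP h3 ha hκ h4 h5 h6
  have hf1 : 1 ≤ f.natDegree := by omega
  -- the points of the cycle
  have hper : ∀ j, it f (j + k) p = it f j p := by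
    intro j
    rw [CYC_add, hkp]
  have hpern : ∀ n j, it f (j + n * k) p = it f j p := by
    intro n
    induction n with
    | zero =>
      intro j
      rw [Nat.zero_mul, Nat.add_zero]
    | succ n ih =>
      intro j
      have : j + (n + 1) * k = (j + n * k) + k := by ring
      rw [this, hper, ih]
  have hκa : ∀ j, AnalyticAt ℂ κ (it f j p) := by
    intro j
    obtain ⟨c₀, c₁, hc⟩ := hκ j
    have h1 : AnalyticAt ℂ (fun z : ℂ => c₀ + c₁ * (z - it f j p)) (it f j p) := by
      fun_prop
    exact h1.congr (hc.mono (fun z hz => hz.symm))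
  have hh : ∀ j, AnalyticAt ℂ (fun z => a z + κ z) (it f j p) := fun j => (ha j).add (hκa j)
  have hLC : ∀ j, a (it f (j + 1) p) + κ (it f (j + 1) p) = 0 →
      a (it f j p) = 0 ∧ (deriv a (it f j p) = 0 →
        deriv (fun z => a z + κ z) (it f (j + 1) p) = 0) := by
    intro j hj
    have h7 := hL1 f (it f j p) a (fun z => a z + κ z) hf1 (ha j)
      (by rw [← CYC_succ]; exact hh (j + 1)) (Filter.Eventually.of_forall (fun z => h3 z))
      (by rw [← CYC_succ]; exact hj)
    rw [← CYC_succ] at h7
    exact h7
  have hback : ∀ j, a (it f (j + 1) p) + κ (it f (j + 1) p) = 0 →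
      a (it f j p) + κ (it f j p) = 0 := by
    intro j hj
    rcases h4 j with h7 | h7
    · exact h7
    · rw [(hLC j hj).1, h7, add_zero]
  have hbackn : ∀ d j, a (it f (j + d) p) + κ (it f (j + d) p) = 0 →
      a (it f j p) + κ (it f j p) = 0 := by
    intro d
    induction d with
    | zero =>
      intro j hj
      exact hj
    | succ d ih =>
      intro j hj
      exact ih j (hback (j + d) hj)
  have hex : ∃ j, a (it f j p) + κ (it f j p) = 0 := by
    by_contra hcon
    push Not at hcon
    have hκ0 : ∀ j, κ (it f j p) = 0 := by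
      intro j
      rcases h4 j with h7 | h7
      · exact absurd h7 (hcon j)
      · exact h7
    have hprod : ∀ m, (∏ i ∈ Finset.range m, fd f (it f i p)) * a p = a (it f m p) := by
      intro m
      induction m with
      | zero =>
        rw [Finset.range_zero, Finset.prod_empty, one_mul, CYC_zero]
      | succ m ih =>
        rw [Finset.prod_range_succ, mul_right_comm, ih, mul_comm, h3, ← CYC_succ, hκ0 (m + 1),
          add_zero]
    have h8 := hprod k
    rw [hkp, ← (CYC_hasDeriv f k p).deriv] at h8
    have h9 : (deriv (it f k) p - 1) * a p = 0 := by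
      rw [sub_mul, h8, one_mul, sub_self]
    rcases mul_eq_zero.mp h9 with h10 | h10
    · rw [sub_eq_zero] at h10
      rw [h10, norm_one] at hder
      exact lt_irrefl _ hder
    · have h11 := hcon 0
      rw [hκ0 0, CYC_zero, h10, add_zero] at h11
      exact h11 rfl
  obtain ⟨j₀, hj₀⟩ := hex
  have hall : ∀ j, a (it f j p) + κ (it f j p) = 0 := by
    intro j
    have hle : j ≤ j₀ + j * k := by
      have : j * 1 ≤ j * k := Nat.mul_le_mul_left j hk
      omega
    obtain ⟨d, hd⟩ := Nat.exists_eq_add_of_le hle
    apply hbackn d j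
    rw [← hd, hpern]
    exact hj₀
  have ha0 : ∀ j, a (it f j p) = 0 := fun j => (hLC j (hall (j + 1))).1
  have hκ0 : ∀ j, κ (it f j p) = 0 := by
    intro j
    have := hall j
    rw [ha0 j, zero_add] at this
    exact this
  -- the derivatives
  have hstep : ∀ j, deriv a (it f j p) = 0 →
      deriv a (it f (j + 1) p) = 0 ∧ deriv κ (it f (j + 1) p) = 0 := by
    intro j hj
    have h7 := (hLC j (hall (j + 1))).2 hj
    have h8 : deriv (fun z => a z + κ z) (it f (j + 1) p) =
        deriv a (it f (j + 1) p) + deriv κ (it f (j + 1) p) :=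
      ((ha (j + 1)).differentiableAt.hasDerivAt.add
        (hκa (j + 1)).differentiableAt.hasDerivAt).deriv
    rw [h8] at h7
    by_cases hP : it f (j + 1) p ∈ P
    · have h9 := h5 (j + 1) hP
      rw [h9, zero_add] at h7
      exact ⟨h9, h7⟩
    · have h9 := h6 (j + 1) hP
      rw [h9, add_zero] at h7
      exact ⟨h7, h9⟩
  have hda : ∀ j, deriv a (it f j p) = 0 := by
    intro j
    induction j with
    | zero => exact h5 0 hpP
    | succ j ih => exact (hstep j ih).1
  have hdκ : ∀ j, deriv κ (it f j p) = 0 := by
    intro j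
    have h7 := (hstep (j + k - 1) (hda _)).2
    have h8 : j + k - 1 + 1 = j + k := by omega
    rw [h8, hper] at h7
    exact h7
  have hκe : ∀ j, ∀ᶠ z in 𝓝 (it f j p), κ z = 0 := by
    intro j
    obtain ⟨c₀, c₁, hc⟩ := hκ j
    have h7 := hc.self_of_nhds
    rw [hκ0 j, sub_self, mul_zero, add_zero] at h7
    have h8 : HasDerivAt (fun z : ℂ => c₀ + c₁ * (z - it f j p)) c₁ (it f j p) := by
      have h9 := (((hasDerivAt_id (it f j p)).sub_const (it f j p)).const_mul c₁).const_add c₀
      rw [mul_one] at h9
      exact h9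
    have h9 : deriv κ (it f j p) = c₁ := by
      have h10 : κ =ᶠ[𝓝 (it f j p)] (fun z : ℂ => c₀ + c₁ * (z - it f j p)) := hc
      rw [h10.deriv_eq, h8.deriv]
    rw [hdκ j] at h9
    filter_upwards [hc] with z hz
    rw [hz, ← h7, ← h9, zero_mul, add_zero]
  intro j
  -- the functional equation near the cycle
  have hfe : ∀ m, ∀ᶠ z in 𝓝 (it f j p), deriv (it f m) z * a z = a (it f m z) := by
    intro m
    induction m with
    | zero =>
      refine Filter.Eventually.of_forall (fun z => ?_)
      rw [(CYC_hasDeriv f 0 z).deriv, Finset.range_zero, Finset.prod_empty, one_mul, CYC_zero]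
    | succ m ih =>
      have hcont : Tendsto (it f (m + 1)) (𝓝 (it f j p)) (𝓝 (it f (m + 1 + j) p)) := by
        rw [CYC_add]
        exact (CYC_diff f (m + 1)).continuous.continuousAt
      have h7 := hcont.eventually (hκe (m + 1 + j))
      filter_upwards [ih, h7] with z hz hz2
      have h8 := h3 (it f m z)
      rw [← CYC_succ, hz2, add_zero] at h8
      rw [← h8, ← hz, (CYC_hasDeriv f (m + 1) z).deriv, (CYC_hasDeriv f m z).deriv,
        Finset.prod_range_succ]
      ring
  have hqk : it f k (it f j p) = it f j p := by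
    rw [← CYC_add, Nat.add_comm, hper]
  have hnorm : ∀ i, deriv (it f k) (it f i p) = deriv (it f k) p := by
    intro i
    induction i with
    | zero => rw [CYC_zero]
    | succ i ih =>
      rw [← ih, (CYC_hasDeriv f k _).deriv, (CYC_hasDeriv f k _).deriv]
      obtain ⟨k', rfl⟩ : ∃ k', k = k' + 1 := ⟨k - 1, by omega⟩
      rw [Finset.prod_range_succ, Finset.prod_range_succ' (fun i_1 => fd f (it f i_1 (it f i p))) k']
      have h7 : it f k' (it f (i + 1) p) = it f i p := by
        rw [← CYC_add]
        have : k' + (i + 1) = i + (k' + 1) := by ring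
        rw [this, hper]
      have h8 : ∀ l, it f (l + 1) (it f i p) = it f l (it f (i + 1) p) := by
        intro l
        rw [← CYC_add, ← CYC_add]
        have : l + 1 + i = l + (i + 1) := by ring
        rw [this]
      rw [h7, CYC_zero]
      congr 1
      exact Finset.prod_congr rfl (fun l _ => by rw [h8 l])
  have hnc : ¬ ∀ᶠ z in 𝓝 (it f j p), it f k z = it f j p := by
    intro hcon
    have hA : AnalyticOnNhd ℂ (it f k) Set.univ := fun w _ => (CYC_diff f k).analyticAt w
    have hB : AnalyticOnNhd ℂ (fun _ : ℂ => it f j p) Set.univ := fun w _ => analyticAt_const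
    have hE := hA.eqOn_of_preconnected_of_eventuallyEq hB isPreconnected_univ
      (Set.mem_univ (it f j p)) hcon
    obtain ⟨z, hz⟩ := CYC_surj f hf1 k (it f j p + 1)
    have h7 := hE (Set.mem_univ z)
    rw [hz] at h7
    have h8 : (1 : ℂ) = 0 := by
      have : it f j p + 1 = it f j p + 0 := by rw [add_zero]; exact h7
      exact add_left_cancel this
    exact one_ne_zero h8
  have hlast := hL3 (it f k) a (it f j p) ((CYC_diff f k).analyticAt _) hqk
    (by rw [hnorm j]; exact hder) hnc (ha j) (ha0 j) (hda j) (hfe k)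
  filter_upwards [hlast, hκe j] with z hz1 hz2
  exact ⟨hz1, hz2⟩

end PPS
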