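import Pool.Agent.helper25.PP.Spec

set_option autoImplicit false

namespace PP

open Finset SimpleGraph CT

theorem DT2_core (h1 : DE_stmt) (h3 : HS_stmt) (h4 : NB4_stmt) (V : Type) [Fintype V]
    [DecidableEq V] (G : SimpleGraph V) (hG : FourRegular G) (hE1 : ¬ E1 G) (hE2 : ¬ E2 G)
    (hn : 700 ≤ Fintype.card V) (X A : Finset V) (hX : X.card ≤ 3) (hA : A.Nonempty)
    (hAn : 2 * A.card ≤ Fintype.card V) (hAX : Disjoint A X)
    (hno : ∀ x ∈ A, ∀ y, y ∉ A → y ∉ X → ¬ G.Adj x y) : False := by
  classical
  obtain ⟨hreg, hNB⟩ := h4 V G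
  obtain ⟨_, _, hNB2⟩ := hNB hG
  have hnb := hreg.1 hG
  -- edges leaving A end in X
  have hd12 : dout G A ≤ 12 := by
    have hsub : out G A ⊆ (inn G univ).filter fun p => p.2 ∈ X := by
      intro p hp
      rw [mem_dout] at hp
      rw [mem_filter, mem_ein]
      refine ⟨⟨⟨mem_univ _, mem_univ _⟩, hp.2⟩, ?_⟩
      by_contra hpX
      exact hno p.1 hp.1.1 p.2 hp.1.2 hpX hp.2
    have h5 := card_le_card hsub
    rw [hNB2 X] at h5
    have h6 : dout G A = (out G A).card := rfl
    omega
  have hA300 : 300 * A.card < Fintype.card V := by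
    by_contra hcon
    push Not at hcon
    exact hE2 ⟨A, hcon, hAn, hd12⟩
  -- neighbours of the elements of A
  have hnbA : ∀ a ∈ A, nb G a ⊆ (A ∪ X).erase a := by
    intro a ha w hw
    rw [mem_nb] at hw
    rw [mem_erase, mem_union]
    refine ⟨(G.ne_of_adj hw).symm, ?_⟩
    by_contra hcon
    push Not at hcon
    exact hno a ha w hcon.1 hcon.2 hw
  have hApos : 1 ≤ A.card := hA.card_pos
  by_cases hA1 : A.card = 1
  · obtain ⟨a, haA⟩ := card_eq_one.1 hA1
    have ha : a ∈ A := by rw [haA]; exact mem_singleton_self a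
    have h5 : nb G a ⊆ X := by
      intro w hw
      have h6 := hnbA a ha hw
      rw [mem_erase, mem_union, haA, mem_singleton] at h6
      rcases h6 with ⟨h7, h8 | h8⟩
      · exact absurd h8 h7
      · exact h8
    have h6 := card_le_card h5
    rw [hnb a] at h6
    omega
  · have hA2 : 2 ≤ A.card := by omega
    have hd6 : 6 ≤ dout G A := h1 V G A hG hE1 hE2 hA2 hAn
    obtain ⟨_, hHS, _⟩ := h3 V G A hG
    -- the set B
    have hBcard : (A ∪ X).card ≤ A.card + 3 := by
      have := card_union_le A X
      omega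
    have hB5 : 5 ≤ (A ∪ X).card := by
      obtain ⟨a, ha⟩ := hA
      have h5 := card_le_card (hnbA a ha)
      rw [hnb a, card_erase_of_mem (mem_union_left _ ha)] at h5
      omega
    have hein : ein G A + 2 * dout G A ≤ ein G (A ∪ X) := by
      have hsw : ((out G A).image fun p : V × V => (p.2, p.1)).card = (out G A).card := by
        apply card_image_of_injective
        intro p q hpq
        simp only [Prod.mk.injEq] at hpq
        exact Prod.ext hpq.2 hpq.1
      have hd1 : Disjoint (inn G A) (out G A) := by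
        rw [Finset.disjoint_left]
        intro p hp hq
        rw [mem_ein] at hp
        rw [mem_dout] at hq
        exact hq.1.2 hp.1.2
      have hd2 : Disjoint (inn G A ∪ out G A) ((out G A).image fun p : V × V => (p.2, p.1)) := by
        rw [Finset.disjoint_left]
        intro p hp hq
        rw [mem_image] at hq
        obtain ⟨q, hq, rfl⟩ := hq
        rw [mem_dout] at hq
        rw [mem_union, mem_ein, mem_dout] at hp
        rcases hp with hp | hp
        · exact hq.1.2 hp.1.1
        · exact hq.1.2 hp.1.1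
      have hsub : (inn G A ∪ out G A) ∪ ((out G A).image fun p : V × V => (p.2, p.1)) ⊆
          inn G (A ∪ X) := by
        have hout : ∀ p ∈ out G A, p.1 ∈ A ∪ X ∧ p.2 ∈ A ∪ X ∧ G.Adj p.1 p.2 := by
          intro p hp
          rw [mem_dout] at hp
          refine ⟨mem_union_left _ hp.1.1, ?_, hp.2⟩
          by_contra hcon
          rw [mem_union] at hcon
          push Not at hcon
          exact hno p.1 hp.1.1 p.2 hcon.1 hcon.2 hp.2
        intro p hp
        rw [mem_union, mem_union] at hp
        rw [mem_ein]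
        rcases hp with (hp | hp) | hp
        · rw [mem_ein] at hp
          exact ⟨⟨mem_union_left _ hp.1.1, mem_union_left _ hp.1.2⟩, hp.2⟩
        · obtain ⟨h5, h6, h7⟩ := hout p hp
          exact ⟨⟨h5, h6⟩, h7⟩
        · rw [mem_image] at hp
          obtain ⟨q, hq, rfl⟩ := hp
          obtain ⟨h5, h6, h7⟩ := hout q hq
          exact ⟨⟨h6, h5⟩, h7.symm⟩
      have h5 := card_le_card hsub
      rw [card_union_of_disjoint hd2, card_union_of_disjoint hd1, hsw] at h5
      have h6 : ein G A = (inn G A).card := rfl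
      have h7 : dout G A = (out G A).card := rfl
      have h8 : ein G (A ∪ X) = (inn G (A ∪ X)).card := rfl
      omega
    refine hE1 ⟨A ∪ X, by omega, by omega, by omega⟩

theorem DT2 (h1 : DE_stmt) (h2 : CN_stmt) (h3 : HS_stmt) (h4 : NB4_stmt) : DT2_stmt := by
  intro V _ _ G hG hE1 hE2 hn X hX
  classical
  by_contra hcon
  have hne : Nonempty (((X : Set V)ᶜ : Set V)) := by
    by_contra hem
    have h5 : ∀ v : V, v ∈ X := by
      intro v
      by_contra hv
      exact hem ⟨⟨v, by
        intro h6
        exact hv (mem_coe.1 h6)⟩⟩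
    have h6 : X = univ := by
      ext v
      simp [h5 v]
    have h7 : X.card = Fintype.card V := by rw [h6, card_univ]
    omega
  obtain ⟨S, hS, hSc, hno⟩ := h2 (((X : Set V)ᶜ : Set V)) (G.induce ((X : Set V)ᶜ)) hne hcon
  -- a set of vertices of the induced graph as a set of vertices
  have key : ∀ S : Finset (((X : Set V)ᶜ : Set V)), S.Nonempty →
      (∀ x ∈ S, ∀ y, y ∉ S → ¬ (G.induce ((X : Set V)ᶜ)).Adj x y) →
      2 * S.card ≤ Fintype.card V → False := by
    intro S hS hno hcard
    refine DT2_core h1 h3 h4 V G hG hE1 hE2 hn X (S.map (Function.Embedding.subtype _)) hX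
      (hS.map) (by rw [card_map]; exact hcard) ?_ ?_
    · rw [Finset.disjoint_left]
      intro v hv hvX
      rw [mem_map] at hv
      obtain ⟨x, _, rfl⟩ := hv
      exact x.2 (mem_coe.2 hvX)
    · intro x hx y hy hyX hadj
      rw [mem_map] at hx
      obtain ⟨x', hx', rfl⟩ := hx
      have hy2 : y ∈ ((X : Set V)ᶜ : Set V) := by
        intro h6
        exact hyX (mem_coe.1 h6)
      refine hno x' hx' ⟨y, hy2⟩ ?_ hadj
      intro h7
      exact hy (mem_map.2 ⟨⟨y, hy2⟩, h7, rfl⟩)
  have hcardW : Fintype.card (((X : Set V)ᶜ : Set V)) ≤ Fintype.card V :=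
    Fintype.card_subtype_le _
  have hsum : S.card + Sᶜ.card = Fintype.card (((X : Set V)ᶜ : Set V)) := by
    rw [card_add_card_compl]
  by_cases hle : 2 * S.card ≤ Fintype.card V
  · exact key S hS hno hle
  · refine key Sᶜ hSc ?_ (by omega)
    intro x hx y hy hadj
    rw [mem_compl] at hx hy
    rw [not_not] at hy
    exact hno y hy x hx hadj.symm

end PP
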